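import Pool.Agent.Lib.MP_fed171_al.FD.Defs

/-!
# Project FD (MP_fed171_al): statements of the pieces
-/

namespace Pool.Agent.Lib.MP_fed171_al.FD

open scoped InnerProductSpace

section Notions

variable {Γ : Type} [Group Γ] {ι κ : Type}

/-- The bounded operator `T` commutes with the right translations. -/
def Equi (T : L2 (ι × Γ) →L[ℂ] L2 (κ × Γ)) : Prop :=
  ∀ (γ : Γ) (ξ : L2 (ι × Γ)), T (rho γ ξ) = rho γ (T ξ)

/-- The subspace `V` is invariant under the right translations. -/
def Inv (V : Submodule ℂ (L2 (ι × Γ))) : Prop :=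
  ∀ (γ : Γ), ∀ ξ ∈ V, rho γ ξ ∈ V

/-- Cocycles of `A` with values in `ℓ²(Γ)`, `A` acting through `φ : A →* Γ`. -/
def IsCocycleVia {A : Type} [Group A] (φ : A →* Γ) (b : A → L2 Γ) : Prop :=
  ∀ x y : A, b (x * y) = b x + lam (φ x) (b y)

end Notions

/-! ## Dimension theory -/

/-- Adjoints of equivariant operators are equivariant.
PROOF. `rho γ` is a surjective isometry with inverse `rho γ⁻¹` (both are `pull`s; norms: it is a
contraction with contractive inverse; or directly `⟪rho γ ξ, rho γ η⟫ = ⟪ξ, η⟫` by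
`lp.inner_eq_tsum` and reindexing the sum by the bijection `(i, x) ↦ (i, x γ)`), so its adjoint is
`rho γ⁻¹`.  Take adjoints in `T ∘ rho γ⁻¹ = rho γ⁻¹ ∘ T`. -/
def S_adj : Prop :=
  ∀ (Γ : Type) [Group Γ] (ι κ : Type) (T : L2 (ι × Γ) →L[ℂ] L2 (κ × Γ)),
    Equi T → Equi (ContinuousLinearMap.adjoint T)

/-- The orthogonal projection onto (the closure of) an invariant subspace is equivariant.
PROOF. `V` invariant, so the closure `W` of `V` is invariant under all `rho γ` (continuity), and
so is `Wᗮ` (since the adjoint of `rho γ` is `rho γ⁻¹`, and `W` is invariant under it). For `ξ`,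
write `ξ = P ξ + (ξ - P ξ)`; `rho γ (P ξ) ∈ W` and `rho γ (ξ - P ξ) ∈ Wᗮ`, so
`P (rho γ ξ) = rho γ (P ξ)` (`Submodule.eq_starProjection_of_mem_orthogonal` or similar). -/
def S_proj : Prop :=
  ∀ (Γ : Type) [Group Γ] (ι : Type) (V : Submodule ℂ (L2 (ι × Γ))),
    Inv V → Equi (V.topologicalClosure.starProjection)

/-- Faithfulness: an invariant subspace of dimension zero is zero.
PROOF. `P δ_(i,1) = 0` for all `i` (a sum of squares is `0`).  `δ_(i,γ) = rho γ⁻¹ δ_(i,1)`, so
`P δ_(i,γ) = 0` by equivariance of `P` (hypothesis `S_proj`). Hence for `ξ ∈ V` we have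
`ξ (i,γ) = ⟪δ_(i,γ), ξ⟫ = ⟪δ_(i,γ), P ξ⟫ = ⟪P δ_(i,γ), ξ⟫ = 0` (`lp.inner_single_left`), so `ξ = 0`. -/
def S_faith : Prop :=
  ∀ (Γ : Type) [Group Γ] (ι : Type) [Fintype ι] (V : Submodule ℂ (L2 (ι × Γ))),
    Inv V → vdim V = 0 → V = ⊥

/-- The trace property.
PROOF. `⟪e_i, R T e_i⟫ = ⟪R† e_i, T e_i⟫ = ∑_(j,γ) ⟪e_i, R δ_(j,γ)⟫ ⟪δ_(j,γ), T e_i⟫` (`lp.hasSum_inner`,
`lp.inner_single_left`). As `δ_(j,γ) = rho γ⁻¹ f_j`, `f_j = δ_(j,1)`, equivariance (of `R` and `T`) and
`(rho γ)† = rho γ⁻¹` give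
`⟪e_i, R δ_(j,γ)⟫ = ⟪δ_(i,γ⁻¹), R f_j⟫` and `⟪δ_(j,γ), T e_i⟫ = ⟪f_j, T δ_(i,γ⁻¹)⟫`.
In the same way `⟪f_j, T R f_j⟫ = ∑_(i,γ) ⟪f_j, T δ_(i,γ)⟫ ⟪δ_(i,γ), R f_j⟫`. Sum over `i`, `j`
and reindex `γ ↦ γ⁻¹` (all the sums converge absolutely; work with `HasSum` on `ι × κ × Γ`, or
for fixed `i`, `j` with the sums over `Γ`: `⟪e_i, R T e_i⟫ = ∑_j ∑'_γ ..`). -/
def S_trace : Prop :=
  ∀ (Γ : Type) [Group Γ] (ι κ : Type) [Fintype ι] [Fintype κ]
    (T : L2 (ι × Γ) →L[ℂ] L2 (κ × Γ)) (R : L2 (κ × Γ) →L[ℂ] L2 (ι × Γ)),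
    Equi T → Equi R →
    ∑ i : ι, inner ℂ (delta (i, (1 : Γ))) (R (T (delta (i, (1 : Γ))))) =
      ∑ j : κ, inner ℂ (delta (j, (1 : Γ))) (T (R (delta (j, (1 : Γ)))))

/-- Rank and nullity: `dim ker T + dim (closure of the range of T) = |ι|`.
PROOF. Replacing `T` by `c T`, `c > 0` small, changes neither the kernel nor the range: assume
`‖T‖ ≤ 1`. Let `N = 1 - T† T` on `L2 (ι × Γ)` and `N' = 1 - T T†` on `L2 (κ × Γ)`: contractions
(positive, `0 ≤ ⟪N v, v⟫ = ‖v‖² - ‖T v‖² ≤ ‖v‖²`). Their fixed vectors are `ker T` and `ker T†`. For every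
`k`: `1 - N^k = (∑_(l<k) N^l T†) T` and `1 - N'^k = T (∑_(l<k) N^l T†)` (use `T N^l = N'^l T`), so by
the trace property (hypothesis `S_trace`, with `R = ∑_(l<k) N^l T†`, equivariant by `S_adj`)
`|ι| - tr N^k = |κ| - tr N'^k`, where `tr X = ∑ ⟪e_i, X e_i⟫`. Average over `k < n` and let `n → ∞`: by
the mean ergodic theorem (`ContinuousLinearMap.tendsto_birkhoffAverage_orthogonalProjection`) the
averages of `N^k` converge strongly to the projection onto `ker T`. So
`|ι| - vdim (ker T) = |κ| - vdim (ker T†)`, as `⟪e, P e⟫ = ‖P e‖²`. Finally the orthogonal complement of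
`ker T†` is the closure of the range of `T`, and `vdim Wᗮ = |κ| - vdim W` (hypothesis `S_compl`). -/
def S_rn : Prop :=
  ∀ (Γ : Type) [Group Γ] (ι κ : Type) [Fintype ι] [Fintype κ]
    (T : L2 (ι × Γ) →L[ℂ] L2 (κ × Γ)), Equi T →
    vdim (LinearMap.ker T.toLinearMap) + vdim (LinearMap.range T.toLinearMap) =
      (Fintype.card ι : ℝ)

/-- Dimension of the orthogonal complement: `‖P e‖² + ‖e - P e‖² = ‖e‖² = 1` for `e = δ_(i,1)`, and
the projection onto `Vᗮ` is `1 - P` (`Vᗮ` is closed, `(V.topologicalClosure)ᗮ = Vᗮ`). -/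
def S_compl : Prop :=
  ∀ (Γ : Type) [Group Γ] (ι : Type) [Fintype ι] (V : Submodule ℂ (L2 (ι × Γ))),
    vdim Vᗮ = (Fintype.card ι : ℝ) - vdim V

/-- Monotonicity: for `V ≤ W`, `P_V = P_V P_W`, so `‖P_V e‖ ≤ ‖P_W e‖`. -/
def S_mono : Prop :=
  ∀ (Γ : Type) [Group Γ] (ι : Type) [Fintype ι] (V W : Submodule ℂ (L2 (ι × Γ))),
    V ≤ W → vdim V ≤ vdim W

/-- Additivity: for `V ≤ W`, `W` closed, `P_W = P_V + P_(W ⊓ Vᗮ)`, orthogonal sum. -/
def S_add : Prop :=
  ∀ (Γ : Type) [Group Γ] (ι : Type) [Fintype ι] (V W : Submodule ℂ (L2 (ι × Γ))),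
    V ≤ W → IsClosed (W : Set (L2 (ι × Γ))) → vdim W = vdim V + vdim (W ⊓ Vᗮ)

/-- An injective equivariant operator preserves the dimension of a closed invariant subspace.
PROOF. `T' = T ∘ P`, `P` the projection onto `V` (equivariant by `S_proj`). The range of `T'` is
`V.map T`, its kernel is `Vᗮ` (if `T P ξ = 0` then `P ξ = 0`). Apply `S_rn` and `S_compl`. -/
def S_inj : Prop :=
  ∀ (Γ : Type) [Group Γ] (ι κ : Type) [Fintype ι] [Fintype κ]
    (T : L2 (ι × Γ) →L[ℂ] L2 (κ × Γ)) (V : Submodule ℂ (L2 (ι × Γ))),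
    Equi T → Inv V → IsClosed (V : Set (L2 (ι × Γ))) → (∀ ξ ∈ V, T ξ = 0 → ξ = 0) →
    vdim (V.map T.toLinearMap) = vdim V

/-- An isometry does not decrease the length of projections. `Θ` linear isometry of `L2 X` into
`L2 Y` with `Θ V ≤ W`: `‖P_V e‖ ≤ ‖P_W Θ e‖`. PROOF. `‖P_V e‖² = ⟪e, P_V e⟫ = ⟪Θ e, Θ P_V e⟫ =
⟪P_W Θ e, Θ P_V e⟫ ≤ ‖P_W Θ e‖ ‖P_V e‖` (`P_V e` is in the closure of `V`, so `Θ P_V e` is in the
closure of `W`, by continuity). -/
def S_isom : Prop :=
  ∀ (X Y : Type) (Θ : L2 X →ₗᵢ[ℂ] L2 Y) (V : Submodule ℂ (L2 X)) (W : Submodule ℂ (L2 Y))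
    (e : L2 X), (∀ v ∈ V, Θ v ∈ W) →
    ‖V.topologicalClosure.starProjection e‖ ≤ ‖W.topologicalClosure.starProjection (Θ e)‖

/-! ## Cocycles -/

/-- The values of a cocycle are continuous equivariant functions of its values on `S`.
PROOF. First, for every `x` in the subgroup generated by `S`, there is a bounded
`E : L2 (ι × Γ) →L[ℂ] L2 Γ` commuting with right translations such that `E ξ = b x` whenever `b` is
a cocycle with `coord i ξ = b (S i)` for all `i`: induction over the subgroup
(`Subgroup.closure_induction`): `E = coord i` for `x = S i`, `E = 0` for `x = 1` (`b 1 = 0`),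
`E_x + lam x ∘ E_y` for `x y`, `- lam x⁻¹ ∘ E_x` for `x⁻¹`. (Right translation on `L2 Γ`:
`pull (fun x => x * γ)`; it commutes with `lam` and `coord` turns `rho` into it.) Then put the `E`'s
of the `g j` together: `T = ∑ j, push_j ∘ E_j`, `push_j : L2 Γ →L[ℂ] L2 (κ × Γ)` the extension by
zero, e.g. the adjoint of `coord j`. -/
def S_eval : Prop :=
  ∀ (Γ : Type) [Group Γ] (ι κ : Type) [Fintype ι] [Fintype κ] (S : ι → Γ) (g : κ → Γ),
    (∀ j, g j ∈ Subgroup.closure (Set.range S)) →
    ∃ T : L2 (ι × Γ) →L[ℂ] L2 (κ × Γ), Equi T ∧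
      ∀ (ξ : L2 (ι × Γ)) (b : Γ → L2 Γ), IsCocycle b → (∀ i, coord i ξ = b (S i)) →
        ∀ j, coord j (T ξ) = b (g j)

/-- `Z S K` is closed.
PROOF. For every `x` let `E_x = coord () ∘ T_x`, `T_x` from `S_eval` with `κ = Unit`, `g = x`. Then
`ξ ∈ Z S K` iff `E_(xy) ξ = E_x ξ + lam x (E_y ξ)` for all `x y`, `E_(S i) ξ = coord i ξ` for all `i`,
and `E_x ξ = 0` for `x ∈ K` (the cocycle is `x ↦ E_x ξ`): an intersection of closed sets. -/
def S_Zclosed : Prop :=
  ∀ (Γ : Type) [Group Γ] (ι : Type) [Fintype ι] (S : ι → Γ) (K : Set Γ),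
    Subgroup.closure (Set.range S) = ⊤ → IsClosed (Z S K : Set (L2 (ι × Γ)))

/-- `Z S K` and `B S` are invariant under the right translations (translate the cocycle, resp. the
vector `c`, by `pull (fun x => x * γ)`, which commutes with `lam`), and `B S ≤ Z S ∅`. -/
def S_ZBinv : Prop :=
  ∀ (Γ : Type) [Group Γ] (ι : Type) (S : ι → Γ) (K : Set Γ),
    Inv (Z S K) ∧ Inv (B S) ∧ B S ≤ Z S ∅

/-- The inner cocycles have dimension one for infinite groups.
PROOF. `T : L2 (Unit × Γ) → L2 (ι × Γ)`, `T c = (lam (S i) c - c)_i` (sum over `i` of extension by zero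
composed with these), equivariant, with range `B S`. It is injective: `lam (S i) c = c` for all `i`
gives `lam x c = c` for all `x ∈ Γ` (closure induction), so `|c|` is constant, and `c = 0` since `c` is
square summable and `Γ` infinite. By `S_rn`: `0 + vdim (B S) = 1` (`vdim ⊥ = 0`). -/
def S_Bdim : Prop :=
  ∀ (Γ : Type) [Group Γ] [Infinite Γ] (ι : Type) [Fintype ι] (S : ι → Γ),
    Subgroup.closure (Set.range S) = ⊤ → vdim (B S) = 1

/-- `bettiOf S = vdim (Z S ∅) - 1` for infinite groups: `S_add` with `V = B S`, `W = Z S ∅`, and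
`S_Bdim`, `S_Zclosed`, `S_ZBinv`. -/
def S_bettiOf : Prop :=
  ∀ (Γ : Type) [Group Γ] [Infinite Γ] (ι : Type) [Fintype ι] (S : ι → Γ),
    Subgroup.closure (Set.range S) = ⊤ → bettiOf S = vdim (Z S ∅) - 1

/-- Independence of the generating family.
PROOF. `T` of `S_eval` for `S` and `g = S'` maps `Z S ∅` onto `Z S' ∅` and is injective on it (a cocycle
which vanishes on `S'` vanishes): `S_inj` gives `vdim (Z S ∅) = vdim (Z S' ∅)`; conclude by
`S_bettiOf`. -/
def S_indep : Prop :=
  ∀ (Γ : Type) [Group Γ] [Infinite Γ] (ι κ : Type) [Fintype ι] [Fintype κ]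
    (S : ι → Γ) (S' : κ → Γ),
    Subgroup.closure (Set.range S) = ⊤ → Subgroup.closure (Set.range S') = ⊤ →
    bettiOf S = bettiOf S'

/-- Rigidity bounds the Betti number.
PROOF. `T` of `S_eval` for `S` and `g` is injective on `Z S ∅`, so `vdim (Z S ∅) ≤ n` by `S_inj`,
`S_mono` (`vdim ⊤ = n`: `S_compl` for `⊤` or `⊥`); conclude by `S_bettiOf`. -/
def S_rigid : Prop :=
  ∀ (Γ : Type) [Group Γ] [Infinite Γ] (ι κ : Type) [Fintype ι] [Fintype κ]
    (S : ι → Γ) (g : κ → Γ), Subgroup.closure (Set.range S) = ⊤ →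
    (∀ b : Γ → L2 Γ, IsCocycle b → (∀ j, b (g j) = 0) → ∀ x, b x = 0) →
    bettiOf S ≤ (Fintype.card κ : ℝ) - 1

/-! ## Amalgams -/

section Amalgams

open Monoid

/-- Elements of a pushout are in the base or products of nonempty reduced words.
PROOF. `PushoutI.induction_on`, or the normal form `PushoutI.NormalWord`: `x = base h * w.prod` with
a word `w` whose letters are in the transversals; if `w` is empty, `x` is in the range of the base;
otherwise multiply the first letter on the left by `φ i h`: the letters are still outside the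
ranges of the `φ i` (letters of normal words are `≠ 1` in the transversal, whose only element in the
range of `φ i` is `1`; see the proof of `Reduced.exists_normalWord_prod_eq`). Or show that the set
of these elements contains `1` and is stable under left multiplication by `of i g`. -/
def S_word : Prop :=
  ∀ (ι : Type) (G : ι → Type) (H : Type) [∀ i, Group (G i)] [Group H] (φ : ∀ i, H →* G i),
    (∀ i, Function.Injective (φ i)) → ∀ x : PushoutI φ,
    x ∈ (PushoutI.base φ).range ∨
      ∃ w : CoprodI.Word G, w ≠ CoprodI.Word.empty ∧ PushoutI.Reduced φ w ∧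
        PushoutI.ofCoprodI w.prod = x

/-- Amalgams of torsion-free groups are torsion-free.
PROOF. Let `x ^ n = 1`, `n > 0`. By `S_word` (hypothesis) `x` is in the base (then `x = of i (φ i h)`,
`(φ i h) ^ n = 1` by `PushoutI.of_injective`, so `x = 1`), or `x` is the product of a nonempty reduced
word. Strong induction on the length `r` of a reduced word `w` with product conjugate to `x`
(it is enough to show: for every reduced `w ≠ empty`, `(product of w) ^ n = 1` implies
`product of w = 1`).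
If `r = 1`, `x` is in a factor: done by torsion-freeness and `PushoutI.of_injective`. If `r ≥ 2` and
the first and the last letter are in different factors, the word `w w .. w` (`n` times) is
reduced and nonempty, so `x ^ n ≠ 1` by `PushoutI.Reduced.eq_empty_of_mem_range`. If the first and the
last letter are in the same factor (`r ≥ 3`), `w = a v b`, conjugate by `b`: `(b a) v`; if `b a` is not
in the range of `φ i` this is a reduced word of length `r - 1`; if `b a = φ i h`, then
`b a = φ j h` in the pushout, `j` the factor of the first letter `c` of `v`: replace `c` by `φ j h * c`,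
a reduced word of length `r - 2`. -/
def S_tf : Prop :=
  ∀ (ι : Type) [Nonempty ι] (G : ι → Type) (H : Type) [∀ i, Group (G i)] [Group H]
    (φ : ∀ i, H →* G i), (∀ i, Function.Injective (φ i)) → (∀ i, TorsionFree (G i)) →
    TorsionFree (PushoutI φ)

/-- Free products of torsion-free groups are torsion-free.
PROOF. Apply `S_tf` to the trivial base `H = Unit` (`φ i = 1`, injective); the homomorphism
`PushoutI.ofCoprodI : CoprodI G →* PushoutI φ` is injective: a nonempty word `w` is reduced (its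
letters are `≠ 1`), so its image is `≠ 1` by `PushoutI.Reduced.eq_empty_of_mem_range`; every element
of `CoprodI G` is the product of a word (`CoprodI.Word.equiv`). Or: it has a left inverse
`PushoutI.lift`. If `ι` is empty, `CoprodI G` is trivial. -/
def S_tfC : Prop :=
  ∀ (ι : Type) (G : ι → Type) [∀ i, Group (G i)], (∀ i, TorsionFree (G i)) →
    TorsionFree (CoprodI G)

/-- Gluing cocycles over a pushout.
PROOF. For each `i` the maps `v ↦ lam (ψ (of i x)) v + b i x`, `x ∈ G i`, are a homomorphism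
`G i →* Equiv.Perm (L2 Q)`; they agree on the base, so they define
`F : PushoutI φ →* Equiv.Perm (L2 Q)` (`PushoutI.lift`). By `PushoutI.induction_on`,
`F x v = lam (ψ x) v + F x 0` for all `x`, `v`. Put `b x = F x 0`. -/
def S_glueP : Prop :=
  ∀ (ι : Type) [Nonempty ι] (G : ι → Type) (H Q : Type) [∀ i, Group (G i)] [Group H] [Group Q]
    (φ : ∀ i, H →* G i) (ψ : PushoutI φ →* Q) (b : ∀ i, G i → L2 Q),
    (∀ i, IsCocycleVia (ψ.comp (PushoutI.of i)) (b i)) →
    (∀ i j h, b i (φ i h) = b j (φ j h)) →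
    ∃ c : PushoutI φ → L2 Q, IsCocycleVia ψ c ∧ ∀ i x, c (PushoutI.of i x) = b i x

/-- Gluing cocycles over a free product. PROOF: as for `S_glueP`, with `CoprodI.lift`. -/
def S_glueC : Prop :=
  ∀ (ι : Type) (G : ι → Type) (Q : Type) [∀ i, Group (G i)] [Group Q]
    (ψ : CoprodI G →* Q) (b : ∀ i, G i → L2 Q),
    (∀ i, IsCocycleVia (ψ.comp CoprodI.of) (b i)) →
    ∃ c : CoprodI G → L2 Q, IsCocycleVia ψ c ∧ ∀ i (x : G i), c (CoprodI.of x) = b i x

/-- The two factors `A` (index `true`) and `ℤ` (index `false`). -/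
def Fam (A : Type) : Bool → Type
  | true => A
  | false => Multiplicative ℤ

instance famGroup (A : Type) [Group A] : ∀ i : Bool, Group (Fam A i)
  | true => inferInstanceAs (Group A)
  | false => inferInstanceAs (Group (Multiplicative ℤ))

/-- The inclusion of `A` in the free product `A * ℤ`. -/
def inA {A : Type} [Group A] : A →* CoprodI (Fam A) := CoprodI.of (M := Fam A) (i := true)

/-- The inclusion of `ℤ` in the free product `A * ℤ`. -/
def inS {A : Type} [Group A] : Multiplicative ℤ →* CoprodI (Fam A) :=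
  CoprodI.of (M := Fam A) (i := false)

/-- The elements `g₀ s g₀⁻¹` and `s^(l+1) g_l s^(-(l+1))` of `A * ℤ`, `s` the generator of `ℤ`. -/
def uu {A : Type} [Group A] {k : ℕ} (g : Fin (k + 1) → A) : Option (Fin (k + 1)) → CoprodI (Fam A)
  | none => inA (g 0) * inS (Multiplicative.ofAdd 1) * (inA (g 0))⁻¹
  | some l => inS (Multiplicative.ofAdd ((l : ℕ) + 1 : ℤ)) * inA (g l) *
      (inS (Multiplicative.ofAdd ((l : ℕ) + 1 : ℤ)))⁻¹

/-- The elements `uu g` are a basis of a free subgroup of `A * ℤ`.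
PROOF. `CoprodI.lift_injective_of_ping_pong` for the groups `Multiplicative ℤ` (or
`FreeGroup Unit`, see the proof of `FreeGroup.injective_lift_of_ping_pong`, and
`freeGroupEquivCoprodI`), acting on the reduced words `CoprodI.Word (Fam A)`. Write
`H_none = g₀ ⟨s⟩ g₀⁻¹`, `H_l = s^(l+1) ⟨g_l⟩ s^(-(l+1))`, that is `H_j = p_j C_j p_j⁻¹`, `p_j` a letter
(`p_none = g₀ ≠ 1`, `p_l = s^(l+1) ≠ 1`), these letters are pairwise different, and `C_j` is in the
OTHER factor. `X_j` = the words of length at least two with first letter `p_j` (the second letter is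
in the other factor). If the first letter of the word `x` is not `p_j`, then `p_j⁻¹ x` is a word which
begins with a letter in the factor of `p_j`; so for `c ∈ C_j`, `c ≠ 1`, `c p_j⁻¹ x = (c, ..)` is reduced
beginning with `c`, and `p_j c p_j⁻¹ x = (p_j, c, ..) ∈ X_j`. Powers: the generator of `H_j` to the power
`m ≠ 0` is `p_j c^m p_j⁻¹` with `c^m ≠ 1`. -/
def S_pp : Prop :=
  ∀ (A : Type) [Group A], TorsionFree A → ∀ (k : ℕ) (g : Fin (k + 1) → A), (∀ l, g l ≠ 1) →
    Function.Injective (FreeGroup.lift (uu g))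

/-- A torsion-free group generated by finitely many elements, normally generated by one element,
and containing a given free group of finite rank.
PROOF. `F = FreeGroup (L × Bool)`, `a_l = (l, false)`, `b_l = (l, true)`; `α` the automorphism
`a_l ↦ b_l`, `b_l ↦ b_l a_l` (inverse `a_l ↦ a_l⁻¹ b_l`, `b_l ↦ a_l`), `H = F ⋊ ℤ`, `t = inr 1` acting by
`α` (`SemidirectProduct` with `zpowersHom (MulAut F) α`). The normal closure of `t` contains
`t a_l t⁻¹ a_l⁻¹ = b_l a_l⁻¹` and `t b_l t⁻¹ b_l⁻¹ = b_l a_l b_l⁻¹`, so `a_l` and `b_l`: it is all of `H`.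
Torsion-free: `F` is (`FreeGroup` is torsion-free in Mathlib) and `ℤ` is. `j = inl ∘ FreeGroup.map`
of `l ↦ (l, false)`, injective. `χ = SemidirectProduct.rightHom`. -/
def S_H : Prop :=
  ∀ (L : Type) [Fintype L], ∃ (H : Type) (_ : Group H) (j : FreeGroup L →* H) (t : H)
    (χ : H →* Multiplicative ℤ),
    Function.Injective j ∧ TorsionFree H ∧ FinGen H ∧ Subgroup.normalClosure {t} = ⊤ ∧
    χ t = Multiplicative.ofAdd 1 ∧ ∀ w, χ (j w) = 1

/-- The same with normal rank `n + 1`: `H' = H × ℤ^n`, `j' w = (j w, 1)`, `T 0 = (t, 1)`,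
`T (i+1) = (1, e_i)`, `χ' (h, x) = (χ h, x)` (`Fin.cons`). The normal closure of the range of `T` contains
`H × 1` (comap along `h ↦ (h, 1)` is normal and contains `t`) and `1 × ℤ^n`. -/
def S_Hn : Prop :=
  ∀ (L : Type) [Fintype L] (n : ℕ), ∃ (H : Type) (_ : Group H) (j : FreeGroup L →* H)
    (T : Fin (n + 1) → H) (χ : H →* Multiplicative (Fin (n + 1) → ℤ)),
    Function.Injective j ∧ TorsionFree H ∧ FinGen H ∧
    Subgroup.normalClosure (Set.range T) = ⊤ ∧ Function.Surjective χ ∧ ∀ w, χ (j w) = 1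

/-- The overgroup `A₁ = A * ℤ`.
PROOF. `A₁ = CoprodI (Fam A)`, `ia = inA`, `s = inS (ofAdd 1)`, `j = FreeGroup.lift (uu g)`: injective
by `S_pp`; torsion-free by `S_tfC`; generated by `A` and `s`. The normal closure `N` of the range of
`j` contains `g₀ s g₀⁻¹`, so `s`, and the conjugates `s^(l+1) g_l s^(-(l+1))`, so the `g_l`, so (comap
along `inA` is normal and contains the `g_l`) all of `A`. Cocycles: for `b` with `b (g l) = 0` extend by
`S_glueC` with the zero cocycle on `ℤ`; the extension `c` vanishes at `s`, all its powers and the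
`g_l`, so at all `uu g`, so on the subgroup generated by them. -/
def S_A1 : Prop :=
  ∀ (A : Type) [Group A], TorsionFree A → ∀ (k : ℕ) (g : Fin (k + 1) → A), (∀ l, g l ≠ 1) →
    Subgroup.normalClosure (Set.range g) = ⊤ →
    ∃ (A₁ : Type) (_ : Group A₁) (ia : A →* A₁) (s : A₁)
      (j : FreeGroup (Option (Fin (k + 1))) →* A₁),
      Function.Injective ia ∧ Function.Injective j ∧ TorsionFree A₁ ∧
      (∀ K : Subgroup A₁, ia.range ≤ K → s ∈ K → K = ⊤) ∧
      Subgroup.normalClosure (Set.range j) = ⊤ ∧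
      ∀ (Q : Type) [Group Q] (ψ : A₁ →* Q) (b : A → L2 Q), IsCocycleVia (ψ.comp ia) b →
        (∀ l, b (g l) = 0) →
        ∃ c : A₁ → L2 Q, IsCocycleVia ψ c ∧ (∀ x, c (ia x) = b x) ∧ c s = 0 ∧ ∀ w, c (j w) = 0

/-- THE CONSTRUCTION. Torsion-free overgroups of normal rank `N + 1` containing `M` copies of `A`.
PROOF. `A` is nontrivial and normally generated by the `g l`; discard the trivial ones: there are
`k` and `g' : Fin (k+1) → A` with values in the range of `g`, all `≠ 1`, normally generating `A`.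
Take `A₁`, `ia`, `s`, `j₁` from `S_A1` and `H`, `j₂`, `T`, `χ` from `S_Hn` with `L = Option (Fin (k+1))`.
`G` = the pushout of `H` and `M` copies of `A₁` over `FreeGroup L`: `PushoutI` indexed by
`Option (Fin M)`. `φ m = of (some m) ∘ ia`; `R` = the images of generators of `H`, and of `s` in each
copy of `A₁`; `T` = the image of `T`. Torsion-free by `S_tf`. Generation: clear. The normal closure of
`T` contains the image of `H` (comap along `of none`), so the image of the base, so the range of `j₁` in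
each copy, so each copy of `A₁`. `χ` is extended by the trivial homomorphism on the copies of `A₁`
(`PushoutI.lift`). Cocycles: `S_A1` extends `b` to the copy `m` of `A₁`, with value `0` on
the base; take `0` on all other factors and glue (`S_glueP` with `ψ = id`). -/
def S_group : Prop :=
  ∀ (A : Type) [Group A] [Nontrivial A], TorsionFree A →
    ∀ (n : ℕ) (S : Fin n → A), Subgroup.closure (Set.range S) = ⊤ →
    ∀ (k : ℕ) (g : Fin k → A), Subgroup.normalClosure (Set.range g) = ⊤ →
    ∀ (N M : ℕ), ∃ (G : Type) (_ : Group G) (φ : Fin M → A →* G) (r : ℕ) (R : Fin r → G)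
      (T : Fin (N + 1) → G) (χ : G →* Multiplicative (Fin (N + 1) → ℤ)),
      (∀ m, Function.Injective (φ m)) ∧ TorsionFree G ∧
      Subgroup.closure (Set.range (Sum.elim (fun p : Fin M × Fin n => φ p.1 (S p.2)) R)) = ⊤ ∧
      Subgroup.normalClosure (Set.range T) = ⊤ ∧ Function.Surjective χ ∧
      ∀ (m : Fin M) (b : A → L2 G), IsCocycleVia (φ m) b → (∀ l, b (g l) = 0) →
        ∃ c : G → L2 G, IsCocycle c ∧ (∀ a, c (φ m a) = b a) ∧
          (∀ m', m' ≠ m → ∀ a, c (φ m' a) = 0) ∧ (∀ i, c (R i) = 0) ∧ ∀ i, c (T i) = 0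

end Amalgams

/-! ## The main inequality -/

/-- The lower bound.
PROOF. For every `m : Fin M` let `Θ_m : L2 (Fin n × A) →ₗᵢ[ℂ] L2 (J × G)`,
`J = (Fin M × Fin n) ⊕ Fin r`, be the extension by zero along the injective map
`(i, a) ↦ (inl (m, i), φ m a)` (e.g. built from `Function.extend`, or the adjoint of `pull`, which is
isometric because `pull ∘ (extension) = 1`). It maps `δ_(i,1)` to `δ_(inl (m,i),1)` and `Z S (range g)` into
`Z SG ∅`: for a cocycle `b` of `A` which vanishes on the `g l`, `x ↦ (extension of b x by zero along φ m)`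
is a cocycle via `φ m`; take the `c` of the hypothesis. Then sum the squares of the inequality
`S_isom` (hypothesis) over `m` and `i`, and drop the coordinates in `Fin r`. -/
def S_lower : Prop :=
  ∀ (A G : Type) [Group A] [Group G] (n M k r : ℕ) (S : Fin n → A) (g : Fin k → A)
    (φ : Fin M → A →* G) (R : Fin r → G),
    (∀ m, Function.Injective (φ m)) →
    (∀ (m : Fin M) (b : A → L2 G), IsCocycleVia (φ m) b → (∀ l, b (g l) = 0) →
        ∃ c : G → L2 G, IsCocycle c ∧ (∀ a, c (φ m a) = b a) ∧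
          (∀ m', m' ≠ m → ∀ a, c (φ m' a) = 0) ∧ (∀ i, c (R i) = 0)) →
    (M : ℝ) * vdim (Z S (Set.range g)) ≤
      vdim (Z (Sum.elim (fun p : Fin M × Fin n => φ p.1 (S p.2)) R) ∅)

/-- A nonzero cocycle vanishing on normal generators gives groups of every normal rank `N + 1`
with arbitrarily large Betti number, and a nonzero cocycle which vanishes at a normal generator.
PROOF. `V = Z S (range g)` is nonzero (`b ≠ 0` is determined by its values on `S`, which generates) and
invariant, so `vdim V > 0` (`S_faith`, `S_ZBinv`). Take `G` from `S_group`; it is nontrivial (`χ` is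
surjective) and infinite (torsion-free and nontrivial), `nrk G = N + 1` (`S_facts`),
`bettiOf = vdim (Z ..) - 1` (`S_bettiOf`) and `betti G = bettiOf` of every finite
generating family (`S_facts`), so `betti G ≥ M vdim V - 1` by `S_lower`. For the
second part take `M = 1`, `N = 0` and extend `a ↦ (extension by zero of b a)`: nonzero, zero at `T 0`. -/
def S_main : Prop :=
  ∀ (A : Type) [Group A], TorsionFree A → FinGen A →
    ∀ (k : ℕ) (g : Fin k → A), Subgroup.normalClosure (Set.range g) = ⊤ →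
    ∀ b : A → L2 A, IsCocycle b → (∀ l, b (g l) = 0) → (∃ x, b x ≠ 0) →
    (∀ (N : ℕ) (C : ℝ), ∃ (G : Type) (_ : Group G), TorsionFree G ∧ Nontrivial G ∧ FinGen G ∧
      nrk G = N + 1 ∧ C < betti G) ∧
    ∃ (G : Type) (_ : Group G) (t : G) (c : G → L2 G), TorsionFree G ∧ Nontrivial G ∧
      FinGen G ∧ Subgroup.normalClosure {t} = ⊤ ∧ IsCocycle c ∧ c t = 0 ∧ ∃ x, c x ≠ 0

/-- The facts on `nrk` and `betti`: the normal rank of a finitely generated group is attained; a
group normally generated by `n` elements with a surjection onto `ℤ^n` has normal rank `n` (images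
of `m` normal generators generate `ℤ^n`, so `m ≥ n`); `betti` is computed by
every finite generating family, for infinite groups (`S_indep`). -/
def S_facts : Prop :=
  (∀ (Γ : Type) [Group Γ], FinGen Γ →
      ∃ g : Fin (nrk Γ) → Γ, Subgroup.normalClosure (Set.range g) = ⊤) ∧
  (∀ (Γ : Type) [Group Γ] (n : ℕ) (T : Fin n → Γ) (χ : Γ →* Multiplicative (Fin n → ℤ)),
      Subgroup.normalClosure (Set.range T) = ⊤ → Function.Surjective χ → nrk Γ = n) ∧
  (∀ (Γ : Type) [Group Γ] [Infinite Γ] (ι : Type) [Fintype ι] (S : ι → Γ),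
      Subgroup.closure (Set.range S) = ⊤ → betti Γ = bettiOf S) ∧
  (∀ (Γ : Type) [Group Γ] [Nontrivial Γ], TorsionFree Γ → Infinite Γ)

end Pool.Agent.Lib.MP_fed171_al.FD
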