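import Pool.Agent.Lib.MP_fed171_al.FD.Fin
import Pool.Agent.Lib.MP_fed171_al.FD.P.adj
import Pool.Agent.Lib.MP_fed171_al.FD.P.trace
import Pool.Agent.Lib.MP_fed171_al.FD.P.rn
import Pool.Agent.Lib.MP_fed171_al.FD.P.lin
import Pool.Agent.Lib.MP_fed171_al.FD.P.faith
import Pool.Agent.Lib.MP_fed171_al.FD.P.inj
import Pool.Agent.Lib.MP_fed171_al.FD.P.isom
import Pool.Agent.Lib.MP_fed171_al.FD.P.eval
import Pool.Agent.Lib.MP_fed171_al.FD.P.zclosed
import Pool.Agent.Lib.MP_fed171_al.FD.P.zbinv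
import Pool.Agent.Lib.MP_fed171_al.FD.P.bdim
import Pool.Agent.Lib.MP_fed171_al.FD.P.bettiof
import Pool.Agent.Lib.MP_fed171_al.FD.P.indep
import Pool.Agent.Lib.MP_fed171_al.FD.P.rigid
import Pool.Agent.Lib.MP_fed171_al.FD.P.word
import Pool.Agent.Lib.MP_fed171_al.FD.P.tf
import Pool.Agent.Lib.MP_fed171_al.FD.P.tfc
import Pool.Agent.Lib.MP_fed171_al.FD.P.glue
import Pool.Agent.Lib.MP_fed171_al.FD.P.pp
import Pool.Agent.Lib.MP_fed171_al.FD.P.h
import Pool.Agent.Lib.MP_fed171_al.FD.P.hn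
import Pool.Agent.Lib.MP_fed171_al.FD.P.a1
import Pool.Agent.Lib.MP_fed171_al.FD.P.group
import Pool.Agent.Lib.MP_fed171_al.FD.P.lower
import Pool.Agent.Lib.MP_fed171_al.FD.P.facts
import Pool.Agent.Lib.MP_fed171_al.FD.P.main
import Pool.Agent.Lib.MP_fed171_al.FD.P.rel
import Pool.Agent.Lib.MP_fed171_al.FD.P.bs
import Pool.Agent.Lib.MP_fed171_al.FD.P.e
import Pool.Agent.Lib.MP_fed171_al.FD.P.fq
import Pool.Agent.Lib.MP_fed171_al.FD.P.hig
import Pool.Agent.Lib.MP_fed171_al.FD.P.ff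
import Pool.Agent.Lib.MP_fed171_al.FD.P.grouph
import Pool.Agent.Lib.MP_fed171_al.FD.P.mainh

/-!
# Project FD (MP_fed171_al): all the pieces together
-/

namespace Pool.Agent.Lib.MP_fed171_al.FD

theorem t_rn : S_rn := p_rn p_trace p_adj p_compl
theorem t_inj : S_inj := p_inj p_proj t_rn p_compl
theorem t_Zclosed : S_Zclosed := p_Zclosed p_eval
theorem t_Bdim : S_Bdim := p_Bdim t_rn
theorem t_bettiOf : S_bettiOf := p_bettiOf p_add t_Bdim t_Zclosed p_ZBinv
/-- `betti` does not depend on the finite generating family. -/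
theorem t_indep : S_indep := p_indep p_eval t_inj t_Zclosed p_ZBinv t_bettiOf
theorem t_rigid : S_rigid := p_rigid p_eval t_inj p_mono p_compl t_Zclosed p_ZBinv t_bettiOf
theorem t_facts : S_facts := p_facts t_indep
theorem t_tf : S_tf := p_tf p_word
theorem t_tfC : S_tfC := p_tfC t_tf
theorem t_A1 : S_A1 := p_A1 p_pp t_tfC p_glueC
theorem t_Hn : S_Hn := p_Hn p_H
theorem t_group : S_group := p_group t_A1 t_Hn t_tf p_glueP
theorem t_lower : S_lower := p_lower p_isom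
theorem t_faith : S_faith := p_faith p_proj
theorem t_main : S_main := p_main t_group t_lower t_faith p_ZBinv t_bettiOf t_facts
theorem t_rel : S_rel := p_rel p_eval t_inj p_mono t_Zclosed p_ZBinv t_bettiOf
theorem t_E : S_E := p_E p_BS t_tf
theorem t_Hig : S_Hig := p_Hig t_E t_tf p_fq
theorem t_FF : S_FF := p_FF p_pp
theorem t_groupH : S_groupH := p_groupH t_A1 t_tf p_glueP t_FF
theorem t_mainH : S_mainH := p_mainH t_groupH t_Hig t_lower t_faith p_ZBinv t_bettiOf t_facts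

end Pool.Agent.Lib.MP_fed171_al.FD
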