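import Mathlib

/-!
# MP_fed171_al: the first L2-Betti number and the normal rank

Short definitions, used in the statement of the hand-in.
-/

namespace Pool.Agent.Lib.MP_fed171_al.Short

/-- The Hilbert space of square summable complex functions on the set `X`. -/
abbrev L2 (X : Type) : Type := lp (fun _ : X => ℂ) 2

/-- The function equal to `1` at `x` and to `0` elsewhere. -/
noncomputable def delta {X : Type} (x : X) : L2 X :=
  haveI := Classical.decEq X
  lp.single 2 x (1 : ℂ)

section Group

variable {Γ : Type} [Group Γ]

/-- For a subspace `V` of `ℓ²(Γ)^ι = ℓ²(ι × Γ)`: the trace `∑ i, ‖P e_i‖²` of the orthogonal projection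
`P` onto the closure of `V`, `e_i` the function equal to `1` at `(i, 1)` and to `0` elsewhere. If `V` is
invariant under the right translations `(i, x) ↦ (i, x γ)`, this is the von Neumann dimension of the
closure of `V`. -/
noncomputable def vdim {ι : Type} [Fintype ι] (V : Submodule ℂ (L2 (ι × Γ))) : ℝ :=
  ∑ i : ι, ‖V.topologicalClosure.starProjection (delta (i, (1 : Γ)))‖ ^ 2

/-- `b` is a `1`-cocycle of `Γ` with values in `ℓ²(Γ)`, on which `Γ` acts by left translation:
`b (x y) = b x + x · b y`, `(x · f) z = f (x⁻¹ z)`. -/
def IsCocycle (b : Γ → L2 Γ) : Prop := ∀ x y z : Γ, b (x * y) z = b x z + b y (x⁻¹ * z)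

/-- The space of the families `(b (S i))_i ∈ ℓ²(Γ)^ι`, `b` a cocycle (this set is a subspace). -/
noncomputable def cocycles {ι : Type} (S : ι → Γ) : Submodule ℂ (L2 (ι × Γ)) :=
  Submodule.span ℂ {ξ | ∃ b : Γ → L2 Γ, IsCocycle b ∧ ∀ i x, ξ (i, x) = b (S i) x}

/-- The space of the families `(S i · c - c)_i`, `c ∈ ℓ²(Γ)` (this set is a subspace): the inner
cocycles. -/
noncomputable def innerCocycles {ι : Type} (S : ι → Γ) : Submodule ℂ (L2 (ι × Γ)) :=
  Submodule.span ℂ {ξ | ∃ c : L2 Γ, ∀ i x, ξ (i, x) = c ((S i)⁻¹ * x) - c x}

/-- For a finite family `S` generating `Γ`: the von Neumann dimension of the orthogonal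
complement of the inner cocycles in the space of all cocycles, that is, of the first reduced
cohomology of `Γ` with coefficients in `ℓ²(Γ)`. -/
noncomputable def bettiOf {ι : Type} [Fintype ι] (S : ι → Γ) : ℝ :=
  vdim (cocycles S ⊓ (innerCocycles S)ᗮ)

variable (Γ)

/-- `Γ` is generated by finitely many elements. -/
def FinGen : Prop := ∃ (n : ℕ) (S : Fin n → Γ), Subgroup.closure (Set.range S) = ⊤

/-- `Γ` is torsion-free: no nontrivial element has finite order. -/
def TorsionFree : Prop := ∀ (x : Γ) (n : ℕ), 0 < n → x ^ n = 1 → x = 1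

/-- The first L2-Betti number of an infinite finitely generated group: the von Neumann dimension of
its first reduced cohomology with coefficients in `ℓ²(Γ)`, computed by means of a finite generating
family. (The value does not depend on this family, see `bettiOf_eq_betti` in `FD/Bridge.lean`: the
set has one element.) -/
noncomputable def betti : ℝ :=
  sInf {r : ℝ | ∃ (n : ℕ) (S : Fin n → Γ), Subgroup.closure (Set.range S) = ⊤ ∧ r = bettiOf S}

/-- The normal rank: the least number of elements whose normal closure is `Γ`. -/
noncomputable def nrk : ℕ :=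
  sInf {n : ℕ | ∃ g : Fin n → Γ, Subgroup.normalClosure (Set.range g) = ⊤}

/-- `Γ` has no nontrivial finite quotient. -/
def NoFin : Prop := ∀ N : Subgroup Γ, N.FiniteIndex → N = ⊤

end Group

end Pool.Agent.Lib.MP_fed171_al.Short
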