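import Pool.Agent.Lib.MP_fed171_al.FD.All
import Pool.Agent.Lib.MP_fed171_al.FD.Short

/-!
# MP_fed171_al: the short definitions agree with those of the library
-/

namespace Pool.Agent.Lib.MP_fed171_al.FD

theorem br_cocycle {Γ : Type} [Group Γ] (b : Γ → L2 Γ) :
    Short.IsCocycle (Γ := Γ) b ↔ IsCocycle b := by
  constructor
  · intro h x y
    refine lp.ext ?_
    funext z
    exact h x y z
  · intro h x y z
    have h1 := congrArg (fun ξ : L2 Γ => (ξ : Γ → ℂ) z) (h x y)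
    exact h1

theorem br_Z {Γ : Type} [Group Γ] {ι : Type} (S : ι → Γ) :
    (Short.cocycles S : Submodule ℂ (Short.L2 (ι × Γ))) = Z S ∅ := by
  refine le_antisymm ?_ ?_
  · refine Submodule.span_le.2 ?_
    rintro ξ ⟨b, hb, h⟩
    refine ⟨b, (br_cocycle b).1 hb, fun i => ?_, fun x hx => absurd hx (Set.notMem_empty x)⟩
    refine lp.ext ?_
    funext x
    exact h i x
  · rintro ξ ⟨b, hb, h, -⟩
    refine Submodule.subset_span ⟨b, (br_cocycle b).2 hb, fun i x => ?_⟩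
    exact congrArg (fun η : L2 Γ => (η : Γ → ℂ) x) (h i)

theorem br_B {Γ : Type} [Group Γ] {ι : Type} (S : ι → Γ) :
    (Short.innerCocycles S : Submodule ℂ (Short.L2 (ι × Γ))) = B S := by
  refine le_antisymm ?_ ?_
  · refine Submodule.span_le.2 ?_
    rintro ξ ⟨c, h⟩
    refine ⟨c, fun i => ?_⟩
    refine lp.ext ?_
    funext x
    exact h i x
  · rintro ξ ⟨c, h⟩
    refine Submodule.subset_span ⟨c, fun i x => ?_⟩
    exact congrArg (fun η : L2 Γ => (η : Γ → ℂ) x) (h i)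

theorem br_bettiOf {Γ : Type} [Group Γ] {ι : Type} [Fintype ι] (S : ι → Γ) :
    Short.bettiOf S = bettiOf S := by
  unfold Short.bettiOf bettiOf
  rw [br_Z, br_B]
  rfl

theorem br_betti (Γ : Type) [Group Γ] [Infinite Γ] (h : FinGen Γ) :
    Short.betti Γ = betti Γ := by
  obtain ⟨n, S, hS⟩ := h
  have key : {r : ℝ | ∃ (n : ℕ) (S : Fin n → Γ), Subgroup.closure (Set.range S) = ⊤ ∧
      r = Short.bettiOf S} = {betti Γ} := by
    ext r
    constructor
    · rintro ⟨m, T, hT, rfl⟩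
      rw [br_bettiOf, Set.mem_singleton_iff, t_facts.2.2.1 Γ (Fin m) T hT]
    · intro hr
      rw [Set.mem_singleton_iff] at hr
      refine ⟨n, S, hS, ?_⟩
      rw [br_bettiOf, hr, t_facts.2.2.1 Γ (Fin n) S hS]
  unfold Short.betti
  rw [key, csInf_singleton]

/-- The number `betti` is computed by every finite generating family. -/
theorem bettiOf_eq_betti (Γ : Type) [Group Γ] [Infinite Γ] (n : ℕ) (S : Fin n → Γ)
    (hS : Subgroup.closure (Set.range S) = ⊤) : Short.bettiOf S = Short.betti Γ := by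
  rw [br_betti Γ ⟨n, S, hS⟩, br_bettiOf, t_facts.2.2.1 Γ (Fin n) S hS]

theorem br_infinite {Γ : Type} [Group Γ] [Nontrivial Γ] (h : TorsionFree Γ) : Infinite Γ :=
  t_facts.2.2.2 Γ h

theorem br_infinite_sub {Γ : Type} [Group Γ] (h : TorsionFree Γ) (C : Subgroup Γ)
    (hC : C ≠ ⊥) : Infinite C := by
  have h1 : Nontrivial C := (Subgroup.nontrivial_iff_ne_bot C).mpr hC
  exact t_facts.2.2.2 C (tf_subgroup h C)

/-- The final theorem in terms of the short definitions. -/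
theorem final_short : List.TFAE [
    ∀ (Γ : Type) [Group Γ] [Nontrivial Γ], Short.FinGen Γ → Short.TorsionFree Γ →
      Short.betti Γ ≤ (Short.nrk Γ : ℝ) - 1,
    ∃ f : ℕ → ℝ, ∀ (Γ : Type) [Group Γ] [Nontrivial Γ], Short.FinGen Γ →
      Short.TorsionFree Γ → Short.betti Γ ≤ f (Short.nrk Γ),
    ∃ (n : ℕ) (C : ℝ), 0 < n ∧ ∀ (Γ : Type) [Group Γ] [Nontrivial Γ], Short.FinGen Γ →
      Short.TorsionFree Γ → Short.nrk Γ = n → Short.betti Γ ≤ C,
    ∃ C : ℝ, ∀ (Γ : Type) [Group Γ] [Nontrivial Γ], Short.FinGen Γ → Short.TorsionFree Γ →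
      Short.nrk Γ = 1 → Short.NoFin Γ → Short.betti Γ ≤ C,
    ∀ (Γ : Type) [Group Γ] [Nontrivial Γ], Short.FinGen Γ → Short.TorsionFree Γ →
      ∀ C : Subgroup Γ, Short.FinGen C → C ≠ ⊥ → Subgroup.normalClosure (C : Set Γ) = ⊤ →
        Short.betti Γ ≤ Short.betti C,
    ∀ (Γ : Type) [Group Γ], Short.FinGen Γ → Short.TorsionFree Γ →
      ∀ (k : ℕ) (g : Fin k → Γ),
      Subgroup.normalClosure (Set.range g) = ⊤ → ∀ b : Γ → Short.L2 Γ, Short.IsCocycle b →
        (∀ l, b (g l) = 0) → ∀ x, b x = 0,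
    ∀ (Γ : Type) [Group Γ], Short.FinGen Γ → Short.TorsionFree Γ → ∀ t : Γ,
      Subgroup.normalClosure {t} = ⊤ → ∀ b : Γ → Short.L2 Γ, Short.IsCocycle b → b t = 0 →
        ∀ x, b x = 0] := by
  have h := final t_main t_mainH t_rigid t_rel p_eval t_facts
  have e1 : (∀ (Γ : Type) [Group Γ] [Nontrivial Γ], Short.FinGen Γ → Short.TorsionFree Γ →
      Short.betti Γ ≤ (Short.nrk Γ : ℝ) - 1) ↔
      ∀ (Γ : Type) [Group Γ] [Nontrivial Γ], FinGen Γ → TorsionFree Γ →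
        betti Γ ≤ (nrk Γ : ℝ) - 1 := by
    constructor
    · intro H Γ _ _ hf ht
      have := br_infinite ht
      rw [← br_betti Γ hf]
      exact H Γ hf ht
    · intro H Γ _ _ hf ht
      have := br_infinite (Γ := Γ) ht
      rw [br_betti Γ hf]
      exact H Γ hf ht
  have e2 : (∃ f : ℕ → ℝ, ∀ (Γ : Type) [Group Γ] [Nontrivial Γ], Short.FinGen Γ →
      Short.TorsionFree Γ → Short.betti Γ ≤ f (Short.nrk Γ)) ↔
      ∃ f : ℕ → ℝ, ∀ (Γ : Type) [Group Γ] [Nontrivial Γ], FinGen Γ → TorsionFree Γ →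
        betti Γ ≤ f (nrk Γ) := by
    constructor
    · rintro ⟨f, H⟩
      refine ⟨f, fun Γ _ _ hf ht => ?_⟩
      have := br_infinite ht
      rw [← br_betti Γ hf]
      exact H Γ hf ht
    · rintro ⟨f, H⟩
      refine ⟨f, fun Γ _ _ hf ht => ?_⟩
      have := br_infinite (Γ := Γ) ht
      rw [br_betti Γ hf]
      exact H Γ hf ht
  have e3 : (∃ (n : ℕ) (C : ℝ), 0 < n ∧ ∀ (Γ : Type) [Group Γ] [Nontrivial Γ],
      Short.FinGen Γ → Short.TorsionFree Γ → Short.nrk Γ = n → Short.betti Γ ≤ C) ↔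
      ∃ (n : ℕ) (C : ℝ), 0 < n ∧ ∀ (Γ : Type) [Group Γ] [Nontrivial Γ], FinGen Γ →
        TorsionFree Γ → nrk Γ = n → betti Γ ≤ C := by
    constructor
    · rintro ⟨n, C, hn, H⟩
      refine ⟨n, C, hn, fun Γ _ _ hf ht hr => ?_⟩
      have := br_infinite ht
      rw [← br_betti Γ hf]
      exact H Γ hf ht hr
    · rintro ⟨n, C, hn, H⟩
      refine ⟨n, C, hn, fun Γ _ _ hf ht hr => ?_⟩
      have := br_infinite (Γ := Γ) ht
      rw [br_betti Γ hf]
      exact H Γ hf ht hr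
  have e4 : (∃ C : ℝ, ∀ (Γ : Type) [Group Γ] [Nontrivial Γ], Short.FinGen Γ →
      Short.TorsionFree Γ → Short.nrk Γ = 1 → Short.NoFin Γ → Short.betti Γ ≤ C) ↔
      ∃ C : ℝ, ∀ (Γ : Type) [Group Γ] [Nontrivial Γ], FinGen Γ → TorsionFree Γ → nrk Γ = 1 →
        NoFin Γ → betti Γ ≤ C := by
    constructor
    · rintro ⟨C, H⟩
      refine ⟨C, fun Γ _ _ hf ht hr hn => ?_⟩
      have := br_infinite ht
      rw [← br_betti Γ hf]
      exact H Γ hf ht hr hn
    · rintro ⟨C, H⟩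
      refine ⟨C, fun Γ _ _ hf ht hr hn => ?_⟩
      have := br_infinite (Γ := Γ) ht
      rw [br_betti Γ hf]
      exact H Γ hf ht hr hn
  have e5 : (∀ (Γ : Type) [Group Γ] [Nontrivial Γ], Short.FinGen Γ → Short.TorsionFree Γ →
      ∀ C : Subgroup Γ, Short.FinGen C → C ≠ ⊥ → Subgroup.normalClosure (C : Set Γ) = ⊤ →
        Short.betti Γ ≤ Short.betti C) ↔
      ∀ (Γ : Type) [Group Γ] [Nontrivial Γ], FinGen Γ → TorsionFree Γ →
        ∀ C : Subgroup Γ, FinGen C → C ≠ ⊥ → Subgroup.normalClosure (C : Set Γ) = ⊤ →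
          betti Γ ≤ betti C := by
    constructor
    · intro H Γ _ _ hf ht C hC hb hn
      have h1 := br_infinite ht
      have h2 := br_infinite_sub ht C hb
      rw [← br_betti Γ hf, ← br_betti C hC]
      exact H Γ hf ht C hC hb hn
    · intro H Γ _ _ hf ht C hC hb hn
      have h1 := br_infinite (Γ := Γ) ht
      have h2 := br_infinite_sub (Γ := Γ) ht C hb
      rw [br_betti Γ hf, br_betti C hC]
      exact H Γ hf ht C hC hb hn
  have e6 : (∀ (Γ : Type) [Group Γ], Short.FinGen Γ → Short.TorsionFree Γ →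
      ∀ (k : ℕ) (g : Fin k → Γ),
      Subgroup.normalClosure (Set.range g) = ⊤ → ∀ b : Γ → Short.L2 Γ, Short.IsCocycle b →
        (∀ l, b (g l) = 0) → ∀ x, b x = 0) ↔
      ∀ (Γ : Type) [Group Γ], FinGen Γ → TorsionFree Γ → ∀ (k : ℕ) (g : Fin k → Γ),
        Subgroup.normalClosure (Set.range g) = ⊤ → ∀ b : Γ → L2 Γ, IsCocycle b →
          (∀ l, b (g l) = 0) → ∀ x, b x = 0 := by
    constructor
    · intro H Γ _ hf ht k g hg b hb hbg
      exact H Γ hf ht k g hg b ((br_cocycle b).2 hb) hbg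
    · intro H Γ _ hf ht k g hg b hb hbg
      exact H Γ hf ht k g hg b ((br_cocycle b).1 hb) hbg
  have e7 : (∀ (Γ : Type) [Group Γ], Short.FinGen Γ → Short.TorsionFree Γ → ∀ t : Γ,
      Subgroup.normalClosure {t} = ⊤ → ∀ b : Γ → Short.L2 Γ, Short.IsCocycle b → b t = 0 →
        ∀ x, b x = 0) ↔
      ∀ (Γ : Type) [Group Γ], FinGen Γ → TorsionFree Γ → ∀ t : Γ,
        Subgroup.normalClosure {t} = ⊤ → ∀ b : Γ → L2 Γ, IsCocycle b → b t = 0 →
          ∀ x, b x = 0 := by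
    constructor
    · intro H Γ _ hf ht t hg b hb hbg
      exact H Γ hf ht t hg b ((br_cocycle b).2 hb) hbg
    · intro H Γ _ hf ht t hg b hb hbg
      exact H Γ hf ht t hg b ((br_cocycle b).1 hb) hbg
  rw [e1, e2, e3, e4, e5, e6, e7]
  exact h

end Pool.Agent.Lib.MP_fed171_al.FD
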