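import Mathlib

/-!
# Project FD (MP_fed171_al): definitions

The Hilbert space of square summable functions, translations, cocycles, the von Neumann
dimension of a subspace of a finite direct sum of copies of it, the first reduced
cohomology of a finitely generated group and its dimension (the first L2-Betti number),
normal rank.
-/

namespace Pool.Agent.Lib.MP_fed171_al.FD

/-- The Hilbert space of square summable complex functions on the set `X`. -/
abbrev L2 (X : Type) : Type := lp (fun _ : X => ℂ) 2

theorem memlp_comp {X Y : Type} (f : X → Y) (hf : Function.Injective f) (ξ : L2 Y) :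
    Memℓp (fun x : X => (ξ (f x) : ℂ)) 2 := by
  have h := lp.memℓp ξ
  rw [memℓp_gen_iff (by norm_num)] at h ⊢
  exact h.comp_injective hf

theorem norm_comp_le {X Y : Type} (f : X → Y) (hf : Function.Injective f) (ξ : L2 Y) :
    ‖(⟨fun x : X => (ξ (f x) : ℂ), memlp_comp f hf ξ⟩ : L2 X)‖ ≤ ‖ξ‖ := by
  have h2 : (0 : ℝ) < (2 : ENNReal).toReal := by norm_num
  refine lp.norm_le_of_forall_sum_le h2 (norm_nonneg _) fun s => ?_
  have h := lp.sum_rpow_le_norm_rpow h2 ξ (s.map ⟨f, hf⟩)
  rwa [Finset.sum_map] at h

/-- Restriction of square summable functions along an injective map: `(pull f ξ) x = ξ (f x)`. -/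
noncomputable def pull {X Y : Type} (f : X → Y) (hf : Function.Injective f) : L2 Y →L[ℂ] L2 X :=
  LinearMap.mkContinuous
    { toFun := fun ξ => ⟨fun x => ξ (f x), memlp_comp f hf ξ⟩
      map_add' := fun _ _ => rfl
      map_smul' := fun _ _ => rfl }
    1 (fun ξ => by rw [one_mul]; exact norm_comp_le f hf ξ)

theorem pull_apply {X Y : Type} (f : X → Y) (hf : Function.Injective f) (ξ : L2 Y) (x : X) :
    pull f hf ξ x = ξ (f x) := rfl

section Group

variable {Γ : Type} [Group Γ]

/-- Left translation by `γ` on `ℓ²(Γ)`: `(lam γ f) x = f (γ⁻¹ x)`. -/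
noncomputable def lam (γ : Γ) : L2 Γ →L[ℂ] L2 Γ :=
  pull (fun x => γ⁻¹ * x) (fun _ _ h => mul_left_cancel h)

/-- Right translation by `γ` on `ℓ²(ι × Γ)`, the direct sum of copies of `ℓ²(Γ)` indexed by `ι`:
`(rho γ ξ) (i, x) = ξ (i, x γ)`. -/
noncomputable def rho {ι : Type} (γ : Γ) : L2 (ι × Γ) →L[ℂ] L2 (ι × Γ) :=
  pull (fun p => (p.1, p.2 * γ))
    (fun _ _ h => Prod.ext (Prod.mk.inj h).1 (mul_right_cancel (Prod.mk.inj h).2))

/-- The coordinate `i` of an element of `ℓ²(ι × Γ)`, the direct sum of copies of `ℓ²(Γ)`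
indexed by `ι`. -/
noncomputable def coord {ι : Type} (i : ι) : L2 (ι × Γ) →L[ℂ] L2 Γ :=
  pull (fun x => (i, x)) (fun _ _ h => (Prod.mk.inj h).2)

/-- The function equal to `1` at `x` and to `0` elsewhere. -/
noncomputable def delta {X : Type} (x : X) : L2 X :=
  haveI := Classical.decEq X
  lp.single 2 x (1 : ℂ)

/-- The von Neumann dimension of the closure of a subspace `V` (invariant under the right
translations) of the direct sum `ℓ²(Γ)^ι`: the trace `∑ i, ⟪e_i, P e_i⟫ = ∑ i, ‖P e_i‖²` of the
orthogonal projection `P` onto the closure of `V`, `e_i` being the characteristic function of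
the unit element of `Γ` in the coordinate `i`. -/
noncomputable def vdim {ι : Type} [Fintype ι] (V : Submodule ℂ (L2 (ι × Γ))) : ℝ :=
  ∑ i : ι, ‖V.topologicalClosure.starProjection (delta (i, (1 : Γ)))‖ ^ 2

/-- `b` is a `1`-cocycle of `Γ` with values in `ℓ²(Γ)`, on which `Γ` acts by left translation. -/
def IsCocycle (b : Γ → L2 Γ) : Prop := ∀ x y : Γ, b (x * y) = b x + lam x (b y)

/-- For a family `S` of elements of `Γ` and a subset `K`: the space of the families
`(b (S i))`, `b` running through the cocycles which vanish on `K`. -/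
def Z {ι : Type} (S : ι → Γ) (K : Set Γ) : Submodule ℂ (L2 (ι × Γ)) where
  carrier := {ξ | ∃ b : Γ → L2 Γ, IsCocycle b ∧ (∀ i, coord i ξ = b (S i)) ∧ ∀ x ∈ K, b x = 0}
  add_mem' := by
    rintro ξ η ⟨b, hb, h1, h2⟩ ⟨c, hc, h3, h4⟩
    refine ⟨b + c, ?_, ?_, ?_⟩
    · intro x y
      simp only [Pi.add_apply, hb x y, hc x y, map_add]
      abel
    · intro i
      simp only [map_add, Pi.add_apply, h1 i, h3 i]
    · intro x hx
      simp only [Pi.add_apply, h2 x hx, h4 x hx, add_zero]
  zero_mem' := ⟨0, fun _ _ => by simp, fun _ => by simp, fun _ _ => rfl⟩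
  smul_mem' := by
    rintro c ξ ⟨b, hb, h1, h2⟩
    refine ⟨c • b, ?_, ?_, ?_⟩
    · intro x y
      simp only [Pi.smul_apply, hb x y, map_smul, smul_add]
    · intro i
      simp only [map_smul, Pi.smul_apply, h1 i]
    · intro x hx
      simp only [Pi.smul_apply, h2 x hx, smul_zero]

/-- The inner cocycles `x ↦ x c - c`, `c ∈ ℓ²(Γ)`, in terms of their values on the family `S`. -/
def B {ι : Type} (S : ι → Γ) : Submodule ℂ (L2 (ι × Γ)) where
  carrier := {ξ | ∃ c : L2 Γ, ∀ i, coord i ξ = lam (S i) c - c}
  add_mem' := by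
    rintro ξ η ⟨c, hc⟩ ⟨d, hd⟩
    refine ⟨c + d, fun i => ?_⟩
    simp only [map_add, hc i, hd i]
    abel
  zero_mem' := ⟨0, fun i => by simp⟩
  smul_mem' := by
    rintro a ξ ⟨c, hc⟩
    refine ⟨a • c, fun i => ?_⟩
    simp only [map_smul, hc i, smul_sub]

/-- For a finite family `S` generating `Γ`: the von Neumann dimension of the orthogonal
complement of the inner cocycles in the space of all cocycles, that is, of the first reduced
cohomology of `Γ` with coefficients in `ℓ²(Γ)`. -/
noncomputable def bettiOf {ι : Type} [Fintype ι] (S : ι → Γ) : ℝ :=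
  vdim (Z S ∅ ⊓ (B S)ᗮ)

variable (Γ)

/-- `Γ` is generated by finitely many elements. -/
def FinGen : Prop := ∃ (n : ℕ) (S : Fin n → Γ), Subgroup.closure (Set.range S) = ⊤

/-- `Γ` is torsion-free: no nontrivial element has finite order. -/
def TorsionFree : Prop := ∀ (x : Γ) (n : ℕ), 0 < n → x ^ n = 1 → x = 1

/-- The first L2-Betti number of a finitely generated group: the von Neumann dimension of its
first reduced cohomology with coefficients in `ℓ²(Γ)`, computed by means of a finite generating
family (it does not depend on this family). The value is `0` for groups which are not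
finitely generated. -/
noncomputable def betti : ℝ :=
  haveI := Classical.propDecidable (FinGen Γ)
  if h : FinGen Γ then bettiOf h.choose_spec.choose else 0

/-- The normal rank: the least number of elements whose normal closure is `Γ`. -/
noncomputable def nrk : ℕ :=
  sInf {n : ℕ | ∃ g : Fin n → Γ, Subgroup.normalClosure (Set.range g) = ⊤}

end Group

end Pool.Agent.Lib.MP_fed171_al.FD
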