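import Pool.Agent.Lib.MP_fed171_al.FD.Stm2

/-!
# Project FD (MP_fed171_al): the final theorem from the pieces
-/

namespace Pool.Agent.Lib.MP_fed171_al.FD

theorem vdim_nonneg {Γ : Type} [Group Γ] {ι : Type} [Fintype ι]
    (V : Submodule ℂ (L2 (ι × Γ))) : 0 ≤ vdim V :=
  Finset.sum_nonneg fun _ _ => by positivity

theorem betti_nonneg (Γ : Type) [Group Γ] : 0 ≤ betti Γ := by
  unfold betti
  split_ifs
  · exact vdim_nonneg _
  · exact le_refl _

theorem tf_subgroup {Γ : Type} [Group Γ] (h : TorsionFree Γ) (C : Subgroup Γ) :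
    TorsionFree C := by
  intro x n hn hx
  have : (x : Γ) ^ n = 1 := by
    rw [← Subgroup.coe_pow, hx, Subgroup.coe_one]
  exact Subtype.ext (h x n hn this)

/-- The final theorem, from the main arguments, the rigidity bound, the relative form and the
facts on `nrk` and `betti`. -/
theorem final (hmain : S_main) (hmainH : S_mainH) (hrigid : S_rigid) (hrel : S_rel)
    (heval : S_eval) (hfacts : S_facts) :
    List.TFAE [
      ∀ (Γ : Type) [Group Γ] [Nontrivial Γ], FinGen Γ → TorsionFree Γ →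
        betti Γ ≤ (nrk Γ : ℝ) - 1,
      ∃ f : ℕ → ℝ, ∀ (Γ : Type) [Group Γ] [Nontrivial Γ], FinGen Γ → TorsionFree Γ →
        betti Γ ≤ f (nrk Γ),
      ∃ (n : ℕ) (C : ℝ), 0 < n ∧ ∀ (Γ : Type) [Group Γ] [Nontrivial Γ], FinGen Γ →
        TorsionFree Γ → nrk Γ = n → betti Γ ≤ C,
      ∃ C : ℝ, ∀ (Γ : Type) [Group Γ] [Nontrivial Γ], FinGen Γ → TorsionFree Γ → nrk Γ = 1 →
        NoFin Γ → betti Γ ≤ C,
      ∀ (Γ : Type) [Group Γ] [Nontrivial Γ], FinGen Γ → TorsionFree Γ →
        ∀ C : Subgroup Γ, FinGen C → C ≠ ⊥ → Subgroup.normalClosure (C : Set Γ) = ⊤ →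
          betti Γ ≤ betti C,
      ∀ (Γ : Type) [Group Γ], FinGen Γ → TorsionFree Γ → ∀ (k : ℕ) (g : Fin k → Γ),
        Subgroup.normalClosure (Set.range g) = ⊤ → ∀ b : Γ → L2 Γ, IsCocycle b →
          (∀ l, b (g l) = 0) → ∀ x, b x = 0,
      ∀ (Γ : Type) [Group Γ], FinGen Γ → TorsionFree Γ → ∀ t : Γ,
        Subgroup.normalClosure {t} = ⊤ → ∀ b : Γ → L2 Γ, IsCocycle b → b t = 0 →
          ∀ x, b x = 0] := by
  tfae_have 1 → 2 := by
    intro h
    exact ⟨fun n => (n : ℝ) - 1, fun Γ _ _ hfg htf => h Γ hfg htf⟩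
  tfae_have 2 → 3 := by
    rintro ⟨f, hf⟩
    exact ⟨1, f 1, one_pos, fun Γ _ _ hfg htf hn => hn ▸ hf Γ hfg htf⟩
  tfae_have 3 → 6 := by
    rintro ⟨n, C, hn, h⟩ A _ hfg htf k g hg b hb hbg
    by_contra hx
    push Not at hx
    obtain ⟨N, rfl⟩ : ∃ N, n = N + 1 := ⟨n - 1, by omega⟩
    obtain ⟨G, hG, h1, h2, h3, h4, h5⟩ := (hmain A htf hfg k g hg b hb hbg hx).1 N C
    exact absurd (h G h3 h1 h4) (not_le.mpr h5)
  tfae_have 2 → 4 := by
    rintro ⟨f, hf⟩
    exact ⟨f 1, fun Γ _ _ hfg htf hn _ => hn ▸ hf Γ hfg htf⟩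
  tfae_have 4 → 6 := by
    rintro ⟨C, h⟩ A _ hfg htf k g hg b hb hbg
    by_contra hx
    push Not at hx
    obtain ⟨G, hG, h1, h2, h3, h4, h5, h6⟩ := hmainH A htf hfg k g hg b hb hbg hx C
    exact absurd (h G h3 h1 h4 h5) (not_le.mpr h6)
  tfae_have 6 → 5 := by
    intro h Γ _ _ hfg htf C hC hbot htop
    haveI : Infinite Γ := hfacts.2.2.2 Γ htf
    haveI : Nontrivial C := (Subgroup.nontrivial_iff_ne_bot C).mpr hbot
    haveI : Infinite C := hfacts.2.2.2 C (tf_subgroup htf C)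
    obtain ⟨n, S, hS⟩ := id hfg
    obtain ⟨m, T, hT⟩ := id hC
    rw [hfacts.2.2.1 Γ (Fin n) S hS, hfacts.2.2.1 C (Fin m) T hT]
    refine hrel Γ C C.subtype (Fin n) (Fin m) S T C.subtype_injective hS hT ?_
    intro b hb hbT
    refine h Γ hfg htf m (fun j => (T j : Γ)) ?_ b hb hbT
    rw [eq_top_iff, ← htop]
    refine Subgroup.normalClosure_le_normal ?_
    have h1 : C ≤ Subgroup.closure (Set.range fun j => (T j : Γ)) := by
      have h2 := congrArg (Subgroup.map C.subtype) hT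
      rw [MonoidHom.map_closure, ← MonoidHom.range_eq_map, Subgroup.range_subtype,
        ← Set.range_comp] at h2
      exact h2.ge
    exact fun x hx => Subgroup.closure_le_normalClosure (h1 hx)
  tfae_have 5 → 1 := by
    intro h Γ _ _ hfg htf
    haveI : Infinite Γ := hfacts.2.2.2 Γ htf
    obtain ⟨g, hg⟩ := hfacts.1 Γ hfg
    set C : Subgroup Γ := Subgroup.closure (Set.range g) with hCdef
    let T : Fin (nrk Γ) → C := fun j => ⟨g j, Subgroup.subset_closure ⟨j, rfl⟩⟩
    have hT : Subgroup.closure (Set.range T) = ⊤ := by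
      rw [eq_top_iff]
      rintro ⟨x, hx⟩ -
      rw [hCdef] at hx
      have key : ∀ (y : Γ) (hy : y ∈ Subgroup.closure (Set.range g)),
          (⟨y, hy⟩ : C) ∈ Subgroup.closure (Set.range T) := by
        intro y hy
        induction hy using Subgroup.closure_induction with
        | mem y hy =>
          obtain ⟨j, rfl⟩ := hy
          exact Subgroup.subset_closure ⟨j, rfl⟩
        | one => exact one_mem _
        | mul a b ha hb h1 h2 => exact mul_mem h1 h2
        | inv a ha h1 => exact inv_mem h1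
      exact key x hx
    have hC : FinGen C := ⟨nrk Γ, T, hT⟩
    have htop : Subgroup.normalClosure (C : Set Γ) = ⊤ := by
      rw [eq_top_iff, ← hg]
      refine Subgroup.normalClosure_mono ?_
      exact Subgroup.subset_closure
    have hbot : C ≠ ⊥ := by
      intro hb
      rw [hb, Subgroup.coe_bot] at htop
      have : Subgroup.normalClosure ({1} : Set Γ) = ⊥ := by
        rw [eq_bot_iff]
        refine Subgroup.normalClosure_le_normal ?_
        simp
      rw [this] at htop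
      exact bot_ne_top htop
    haveI : Nontrivial C := (Subgroup.nontrivial_iff_ne_bot C).mpr hbot
    haveI : Infinite C := hfacts.2.2.2 C (tf_subgroup htf C)
    refine (h Γ hfg htf C hC hbot htop).trans ?_
    rw [hfacts.2.2.1 C (Fin (nrk Γ)) T hT]
    have := hrigid C (Fin (nrk Γ)) (Fin (nrk Γ)) T T hT ?_
    · simpa using this
    · intro b hb hbT x
      obtain ⟨E, -, hE⟩ := heval C (Fin (nrk Γ)) Unit T (fun _ => x)
        (fun _ => hT ▸ Subgroup.mem_top x)
      have h1 := hE 0 b hb (fun i => by rw [hbT i, map_zero]) ()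
      rw [map_zero, map_zero] at h1
      exact h1.symm
  tfae_have 6 → 7 := by
    intro h Γ _ hfg htf t ht b hb hbt
    refine h Γ hfg htf 1 (fun _ => t) ?_ b hb (fun _ => hbt)
    rw [Set.range_const]
    exact ht
  tfae_have 7 → 6 := by
    intro h A _ hfg htf k g hg b hb hbg
    by_contra hx
    push Not at hx
    obtain ⟨G, hG, t, c, h1, h2, h3, h4, h5, h6, x, h7⟩ :=
      (hmain A htf hfg k g hg b hb hbg hx).2
    exact h7 (h G h3 h1 t h4 c h5 h6 x)
  tfae_finish

end Pool.Agent.Lib.MP_fed171_al.FD
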