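import Pool.Agent.Lib.MP_fed171_al.FD.Stm

/-!
# Project FD (MP_fed171_al): statements of the pieces, second part

The relative form and groups without finite quotients.
-/

namespace Pool.Agent.Lib.MP_fed171_al.FD

open Monoid

/-- The relative form: if a cocycle of `Γ` which vanishes on (the image of) `C` vanishes, then the
Betti number of `Γ` is at most the one of `C`.
PROOF. By `S_bettiOf` (for `Γ` and for `C`) we need `vdim (Z S ∅) ≤ vdim (Z T ∅)`. Let
`W ≤ L2 (κ × Γ)` be the space of families `(b (T j))_j`, `b : C → L2 Γ` cocycle via `φ`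
(a submodule, defined by hand; closedness is not needed, `vdim` uses the closure). The operator of
`S_eval` for `S` and `g j = φ (T j)` is injective on `Z S ∅` (hypothesis: a cocycle which vanishes at the
`φ (T j)` vanishes) and maps it into `W` (restrict the cocycle to `C`):
`vdim (Z S ∅) = vdim (image) ≤ vdim W` (`S_inj`, `S_mono`). Finally `vdim W ≤ vdim (Z T ∅)`: let
`res : L2 (κ × Γ) → L2 (κ × C)` be `pull (fun p => (p.1, φ p.2))`. It maps `W` into `Z T ∅`
(`x ↦ pull φ (b x)` is a cocycle), so the closure of `W` into the closure of `Z T ∅`. Let `P`, `P'` be the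
projections onto these closures and `w = P δ_(j,1)`. Then
`‖w‖² = ⟪δ_(j,1), w⟫ = w (j,1) = (res w) (j,1) = ⟪δ_(j,1), res w⟫ = ⟪P' δ_(j,1), res w⟫ ≤ ‖P' δ_(j,1)‖ ‖w‖`. -/
def S_rel : Prop :=
  ∀ (Γ C : Type) [Group Γ] [Infinite Γ] [Group C] [Infinite C] (φ : C →* Γ)
    (ι κ : Type) [Fintype ι] [Fintype κ] (S : ι → Γ) (T : κ → C), Function.Injective φ →
    Subgroup.closure (Set.range S) = ⊤ → Subgroup.closure (Set.range T) = ⊤ →
    (∀ b : Γ → L2 Γ, IsCocycle b → (∀ j, b (φ (T j)) = 0) → ∀ x, b x = 0) →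
    bettiOf S ≤ bettiOf T

/-- `Γ` has no nontrivial finite quotient. -/
def NoFin (Γ : Type) [Group Γ] : Prop := ∀ N : Subgroup Γ, N.FiniteIndex → N = ⊤

/-- The group `⟨x, y | y x y⁻¹ = x²⟩`, concretely.
PROOF. In `Multiplicative ℚ ⋊ Multiplicative ℤ` (`n` acts by multiplication by `2^n`; or: in the group
of the maps `z ↦ 2^n z + q` of `ℚ`, a subgroup of `Equiv.Perm ℚ`) take `x : z ↦ z + 1`,
`y : z ↦ 2 z` and `K` = the subgroup generated by `x`, `y`. `y x y⁻¹ : z ↦ 2 (z / 2 + 1) = z + 2`.
Torsion-free: a power `z ↦ 2^(k n) z + ..` with `k > 0` which is the identity has `n = 0`, then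
`k q = 0`. `x^m : z ↦ z + m`, `y^n : z ↦ 2^n z`. -/
def S_BS : Prop :=
  ∃ (K : Type) (_ : Group K) (x y : K), TorsionFree K ∧ y * x * y⁻¹ = x ^ 2 ∧
    Subgroup.closure {x, y} = ⊤ ∧ ∀ m n : ℤ, x ^ m = y ^ n → m = 0 ∧ n = 0

/-- Half of the group of Higman.
PROOF. `E` = the pushout over `Multiplicative ℤ` of two copies of `K` (`S_BS`), indexed by `Bool`;
base: `n ↦ y^n` in the copy `true`, `n ↦ x^n` in the copy `false` (both injective). `a = of true x`,
`b = of true y = of false x`, `c = of false y`. Torsion-free by `S_tf`. Free: a nonempty reduced word in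
`a`, `c` is a product of nonzero powers, alternately of `a` and of `c`, and `x^m` (`m ≠ 0`) is not in
the range of the base in the copy `true`, `y^n` (`n ≠ 0`) not in the one of the copy `false`: the word
is `PushoutI.Reduced`, and nonempty, so its product is `≠ 1`
(`PushoutI.Reduced.eq_empty_of_mem_range`). In Lean: the homomorphism
`CoprodI (fun _ : Bool => Multiplicative ℤ) → PushoutI` is injective (map words letterwise), and
`freeGroupEquivCoprodI` or `FreeGroup.lift` factors through it. -/
def S_E : Prop :=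
  ∃ (E : Type) (_ : Group E) (a b c : E), TorsionFree E ∧ b * a * b⁻¹ = a ^ 2 ∧
    c * b * c⁻¹ = b ^ 2 ∧ Subgroup.closure {a, b, c} = ⊤ ∧
    Function.Injective (FreeGroup.lift (fun i : Bool => if i then a else c))

/-- Four elements of a finite group with Higman's relations are trivial.
PROOF. If `a ≠ 1` then all four are `≠ 1` (`d = 1` gives `c = 1`, .., and `b = 1` gives `a = a²`,
`a = 1`). Let `n` be the orders. `b^(n_b) = 1` gives `a = a^(2^(n_b))` so `n_a ∣ 2^(n_b) - 1`, and
cyclically (`n_d ∣ 2^(n_a) - 1`). Let `p` be the smallest prime which divides one of the four orders,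
say `p ∣ n_a`. Then `p ∣ 2^(n_b) - 1`, so the order of `2` modulo `p` is `> 1`, divides `n_b` and is
`≤ p - 1`: a prime divisor of it is smaller than `p` and divides `n_b`. Contradiction. -/
def S_fq : Prop :=
  ∀ (Q : Type) [Group Q] [Finite Q] (a b c d : Q), b * a * b⁻¹ = a ^ 2 → c * b * c⁻¹ = b ^ 2 →
    d * c * d⁻¹ = c ^ 2 → a * d * a⁻¹ = d ^ 2 → a = 1 ∧ b = 1 ∧ c = 1 ∧ d = 1

/-- The group of Higman.
PROOF. The pushout over `FreeGroup Bool` of two copies of `E` (`S_E`), indexed by `Bool`: base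
`FreeGroup.lift (if i then a else c)` in the copy `true`, `FreeGroup.lift (if i then c else a)` in the copy
`false` (injective: compose with the swap of the generators). `a₁ = of true a = of false c`,
`a₂ = of true b`, `a₃ = of true c = of false a`, `a₄ = of false b`: `a₂ a₁ a₂⁻¹ = a₁²`,
`a₃ a₂ a₃⁻¹ = a₂²`, `a₄ a₃ a₄⁻¹ = a₃²`, `a₁ a₄ a₁⁻¹ = a₄²`. Torsion-free by `S_tf`, generated by the
`a_i`. `j` = the base (injective: `PushoutI.base_injective`), `t = a₁`: a normal subgroup containing
`a₁` contains `a₄` (`a₁ a₄ a₁⁻¹ a₄⁻¹ = a₄`), then `a₃`, then `a₂`. `NoFin`: a subgroup of finite index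
contains a normal subgroup `N` of finite index (`Subgroup.normalCore`); `S_fq` in `G ⧸ N`. -/
def S_Hig : Prop :=
  ∃ (H : Type) (_ : Group H) (j : FreeGroup Bool →* H) (t : H),
    Function.Injective j ∧ TorsionFree H ∧ FinGen H ∧ Subgroup.normalClosure {t} = ⊤ ∧ NoFin H

/-- Free groups of finite rank embed in the free group of rank two.
PROOF. `S_pp` with `A = Multiplicative ℤ`, `g l` = the generator, `k` = the cardinality of `L`:
`FreeGroup (Option (Fin (k+1)))` embeds in `CoprodI (Fam (Multiplicative ℤ))`, which embeds in (is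
isomorphic to) `FreeGroup Bool` (`CoprodI.lift` of the two homomorphisms `n ↦ (of i)^n`, with left
inverse `FreeGroup.lift`); `FreeGroup L` embeds in `FreeGroup (Option (Fin (k+1)))`
(`FreeGroup.map` of an injective map). -/
def S_FF : Prop :=
  ∀ (L : Type) [Fintype L], ∃ f : FreeGroup L →* FreeGroup Bool, Function.Injective f

/-- THE CONSTRUCTION, general form: `H` arbitrary.
PROOF: the same as of `S_group` (see `FD/P/group.lean`). -/
def S_groupH : Prop :=
  ∀ (A : Type) [Group A] [Nontrivial A], TorsionFree A →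
    ∀ (n : ℕ) (S : Fin n → A), Subgroup.closure (Set.range S) = ⊤ →
    ∀ (k : ℕ) (g : Fin k → A), Subgroup.normalClosure (Set.range g) = ⊤ →
    ∀ (M : ℕ) (H : Type) [Group H] (j : FreeGroup Bool →* H), Function.Injective j →
      TorsionFree H → FinGen H →
    ∃ (G : Type) (_ : Group G) (φ : Fin M → A →* G) (r : ℕ) (R : Fin r → G) (i : H →* G),
      (∀ m, Function.Injective (φ m)) ∧ Function.Injective i ∧ TorsionFree G ∧
      Subgroup.closure (Set.range (Sum.elim (fun p : Fin M × Fin n => φ p.1 (S p.2)) R)) = ⊤ ∧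
      (∀ N : Subgroup G, N.Normal → i.range ≤ N → N = ⊤) ∧
      ∀ (m : Fin M) (b : A → L2 G), IsCocycleVia (φ m) b → (∀ l, b (g l) = 0) →
        ∃ c : G → L2 G, IsCocycle c ∧ (∀ a, c (φ m a) = b a) ∧
          (∀ m', m' ≠ m → ∀ a, c (φ m' a) = 0) ∧ (∀ i, c (R i) = 0) ∧ ∀ h, c (i h) = 0

/-- A nonzero cocycle vanishing on normal generators gives groups of normal rank one without
finite quotients, of arbitrarily large Betti number.
PROOF. As `S_main` (see `FD/P/main.lean`), with `G` from `S_groupH` and `H` the group of Higman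
(`S_Hig`): the normal closure of `i t` is `G`, so `nrk G = 1` (`nrk G ≤ 1`, and `nrk G ≠ 0` since `G` is
nontrivial); a subgroup of finite index of `G` contains a normal one `N` (`Subgroup.normalCore`),
`N.comap i` has finite index in `H`, so it is `H`, so `N = G`. -/
def S_mainH : Prop :=
  ∀ (A : Type) [Group A], TorsionFree A → FinGen A →
    ∀ (k : ℕ) (g : Fin k → A), Subgroup.normalClosure (Set.range g) = ⊤ →
    ∀ b : A → L2 A, IsCocycle b → (∀ l, b (g l) = 0) → (∃ x, b x ≠ 0) →
    ∀ C : ℝ, ∃ (G : Type) (_ : Group G), TorsionFree G ∧ Nontrivial G ∧ FinGen G ∧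
      nrk G = 1 ∧ NoFin G ∧ C < betti G

end Pool.Agent.Lib.MP_fed171_al.FD
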